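import Pool.Agent.Helper8.UL.Base2
import Pool.Agent.Helper8.UL.Final

/-! Assembly of UL2. -/

open Set

namespace Pool.Agent.Helper8.UL2

open Pool.UL

theorem final2 (hO : S_ORD2) (hI : S_IND2) (hR : S_ROWS) (hL : S_LIN) : S_FINAL2 := by
  apply hO
  intro Δ n E σ hσ hE ht hΔ
  obtain ⟨es, r, ok, nd, mem, hcr⟩ := hI Δ n E σ hσ hE ht hΔ
  have hE1 : ∀ i j, E i j → i < n ∧ j < n ∧ i ≠ j := by
    intro i j h
    obtain ⟨h1, h2, h3⟩ := hE i j h
    exact ⟨h1, h2, fun h => by subst h; exact lt_irrefl _ h3⟩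
  have hE2 : ∀ i j, E i j → ¬ E j i := by
    intro i j h h'
    have := (hE i j h).2.2
    have := (hE j i h').2.2
    omega
  exact (hL n E _ hE1 hE2 (hR n E es hE1 hE2 r ok nd mem)).mono (fun i j => hcr (i, j))

end Pool.Agent.Helper8.UL2
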