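import Pool.Agent.Helper8.UL.Base2

/-! Part N1. -/

open Set

namespace Pool.Agent.Helper8.UL2.N1

open Pool.UL

/-- the cost computation of N1 -/
theorem cost_arith (Δ X₀ X₀' XA XA' XC XC' I t t' nc np ntp nd nbw nbB ntw nbq ntB nwq : ℕ)
    (h1 : nc ≤ I) (h2 : np ≤ I) (h3 : ntp ≤ I) (h4 : nd ≤ I) (h5 : nbw ≤ I) (h6 : nbB ≤ I)
    (h7 : ntw ≤ I) (h8 : nbq ≤ I) (h9 : ntB ≤ I) (h10 : nwq ≤ I) :
    X₀ * (t + nc + np + ntp) + X₀' * t' + XA * (t + np + ntp) + XA' * nbw + XC * ntB +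
      XC' * (nwq + nd + t' + nbq) + (Δ * (nd + t') + 2 * Δ * nbw) + (2 * Δ * nc + Δ * (np + ntp)) +
      (2 * Δ * nbB + Δ * t) + (Δ * (nbB + np) + 2 * Δ * ntp) +
      (3 * Δ * ntw + Δ * (nd + t' + nbq)) + (2 * Δ * t + 2 * Δ * (ntp + ntB)) +
      (Δ * t' + 2 * Δ * nbq) ≤
    I * (100 * Δ + 10 * (X₀ + X₀' + XA + XA' + XC + XC')) + (X₀ + XA + 4 * Δ) * t +
      (X₀' + XC' + 4 * Δ) * t' := by
  have m : ∀ (a b c : ℕ), b ≤ c → a * b ≤ a * c := fun a b c h => Nat.mul_le_mul_left a h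
  nlinarith [m X₀ _ _ h1, m X₀ _ _ h2, m X₀ _ _ h3, m XA _ _ h2, m XA _ _ h3, m XA' _ _ h5,
    m XC _ _ h9, m XC' _ _ h10, m XC' _ _ h4, m XC' _ _ h8, m Δ _ _ h1, m Δ _ _ h2, m Δ _ _ h3,
    m Δ _ _ h4, m Δ _ _ h5, m Δ _ _ h6, m Δ _ _ h7, m Δ _ _ h8, m Δ _ _ h9, m Δ _ _ h10,
    Nat.zero_le (I * X₀), Nat.zero_le (I * X₀'), Nat.zero_le (I * XA), Nat.zero_le (I * XA'),
    Nat.zero_le (I * XC), Nat.zero_le (I * XC'), Nat.zero_le (I * Δ), Nat.zero_le (Δ * t),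
    Nat.zero_le (Δ * t')]


/-- the chain of rows between `p` and `q` -/
theorem mid_run {U₀ θ cA pw tpB c₀ θ' d₀ V₀ WB bwB UA bwD bqD WD dA VA UC aC twB cC wq twD eA dC
    VC : List (ℕ × ℕ)} {em₀ elD emA elC ehA emC ehB : List Ev} {w : ℕ}
    (q₀ : Run (U₀ ++ (θ ++ cA ++ pw ++ tpB) ++ c₀ ++ θ') em₀
      ((θ ++ cA ++ pw ++ tpB) ++ d₀ ++ θ' ++ V₀))
    (rD : Run [] elD (bwD ++ bqD ++ WD))
    (qA : Run (UA ++ (θ ++ pw ++ tpB) ++ cA ++ bwD) emA ((θ ++ pw ++ tpB) ++ dA ++ bwD ++ VA))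
    (rC : Run [] elC (UC ++ aC)) (rA : Run (eA ++ VA) ehA [])
    (qC : Run (UC ++ twB ++ cC ++ (wq ++ (d₀ ++ θ') ++ bqD)) emC
      (twB ++ dC ++ (wq ++ (d₀ ++ θ') ++ bqD) ++ VC))
    (rB : Run (WB ++ tpB ++ twB) ehB []) :
    Run ((WB ++ bwB ++ UA ++ U₀) ++ θ ++ (cA ++ pw ++ tpB ++ c₀) ++ θ')
      (em₀ ++ elD ++ [Ev.swap (d₀ ++ θ') bwD] ++ [Ev.swap cA (pw ++ tpB)] ++ emA ++
        [Ev.swap bwB θ] ++ [Ev.swap (bwB ++ pw) tpB] ++ elC ++
        [Ev.vert w (aC ++ bwB ++ pw ++ dA ++ bwD) (twB ++ cC ++ wq ++ twD ++ eA)] ++ ehA ++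
        [Ev.swap twD (d₀ ++ θ' ++ bqD)] ++ emC ++ [Ev.swap θ (tpB ++ twB)] ++ ehB ++
        [Ev.swap θ' bqD])
      (θ ++ (dC ++ wq ++ d₀ ++ bqD) ++ θ' ++ (VC ++ twD ++ WD ++ V₀)) := by
  have g1 : Run ((WB ++ bwB ++ UA ++ U₀) ++ θ ++ (cA ++ pw ++ tpB ++ c₀) ++ θ') em₀
      (WB ++ bwB ++ UA ++ θ ++ cA ++ pw ++ tpB ++ d₀ ++ θ' ++ V₀) :=
    (q₀.context (WB ++ bwB ++ UA) []).cast (by simp) (by simp)
  have g2 : Run (WB ++ bwB ++ UA ++ θ ++ cA ++ pw ++ tpB ++ d₀ ++ θ' ++ V₀) elD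
      (WB ++ bwB ++ UA ++ θ ++ cA ++ pw ++ tpB ++ (d₀ ++ θ') ++ bwD ++ bqD ++ WD ++ V₀) :=
    (rD.insert (WB ++ bwB ++ UA ++ θ ++ cA ++ pw ++ tpB ++ d₀ ++ θ') V₀).cast rfl (by simp)
  have g3 : Run (WB ++ bwB ++ UA ++ θ ++ cA ++ pw ++ tpB ++ (d₀ ++ θ') ++ bwD ++ bqD ++ WD ++ V₀)
      [Ev.swap (d₀ ++ θ') bwD]
      (WB ++ bwB ++ UA ++ θ ++ cA ++ (pw ++ tpB) ++ bwD ++ (d₀ ++ θ') ++ bqD ++ WD ++ V₀) :=
    (Run.swap1 (WB ++ bwB ++ UA ++ θ ++ cA ++ pw ++ tpB) (d₀ ++ θ') bwD (bqD ++ WD ++ V₀)).cast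
      (by simp) (by simp)
  have g4 : Run (WB ++ bwB ++ UA ++ θ ++ cA ++ (pw ++ tpB) ++ bwD ++ (d₀ ++ θ') ++ bqD ++ WD ++ V₀)
      [Ev.swap cA (pw ++ tpB)]
      (WB ++ bwB ++ UA ++ θ ++ pw ++ tpB ++ cA ++ bwD ++ (d₀ ++ θ') ++ bqD ++ WD ++ V₀) :=
    (Run.swap1 (WB ++ bwB ++ UA ++ θ) cA (pw ++ tpB) (bwD ++ (d₀ ++ θ') ++ bqD ++ WD ++ V₀)).cast
      (by simp) (by simp)
  have g5 : Run (WB ++ bwB ++ UA ++ θ ++ pw ++ tpB ++ cA ++ bwD ++ (d₀ ++ θ') ++ bqD ++ WD ++ V₀)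
      emA (WB ++ bwB ++ θ ++ pw ++ tpB ++ dA ++ bwD ++ VA ++ (d₀ ++ θ') ++ bqD ++ WD ++ V₀) :=
    (qA.context (WB ++ bwB) ((d₀ ++ θ') ++ bqD ++ WD ++ V₀)).cast (by simp) (by simp)
  have g6 : Run (WB ++ bwB ++ θ ++ pw ++ tpB ++ dA ++ bwD ++ VA ++ (d₀ ++ θ') ++ bqD ++ WD ++ V₀)
      [Ev.swap bwB θ]
      (WB ++ θ ++ (bwB ++ pw) ++ tpB ++ dA ++ bwD ++ VA ++ (d₀ ++ θ') ++ bqD ++ WD ++ V₀) :=
    (Run.swap1 WB bwB θ (pw ++ tpB ++ dA ++ bwD ++ VA ++ (d₀ ++ θ') ++ bqD ++ WD ++ V₀)).cast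
      (by simp) (by simp)
  have g7 : Run (WB ++ θ ++ (bwB ++ pw) ++ tpB ++ dA ++ bwD ++ VA ++ (d₀ ++ θ') ++ bqD ++ WD ++ V₀)
      [Ev.swap (bwB ++ pw) tpB]
      (WB ++ θ ++ tpB ++ bwB ++ pw ++ dA ++ bwD ++ VA ++ (d₀ ++ θ') ++ bqD ++ WD ++ V₀) :=
    (Run.swap1 (WB ++ θ) (bwB ++ pw) tpB (dA ++ bwD ++ VA ++ (d₀ ++ θ') ++ bqD ++ WD ++ V₀)).cast
      (by simp) (by simp)
  have g8 : Run (WB ++ θ ++ tpB ++ bwB ++ pw ++ dA ++ bwD ++ VA ++ (d₀ ++ θ') ++ bqD ++ WD ++ V₀)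
      elC (WB ++ θ ++ tpB ++ UC ++ (aC ++ bwB ++ pw ++ dA ++ bwD) ++ VA ++ (d₀ ++ θ') ++ bqD ++
        WD ++ V₀) :=
    (rC.insert (WB ++ θ ++ tpB) (bwB ++ pw ++ dA ++ bwD ++ VA ++ (d₀ ++ θ') ++ bqD ++ WD ++
      V₀)).cast (by simp) (by simp)
  have g9 : Run (WB ++ θ ++ tpB ++ UC ++ (aC ++ bwB ++ pw ++ dA ++ bwD) ++ VA ++ (d₀ ++ θ') ++
        bqD ++ WD ++ V₀)
      [Ev.vert w (aC ++ bwB ++ pw ++ dA ++ bwD) (twB ++ cC ++ wq ++ twD ++ eA)]
      (WB ++ θ ++ tpB ++ UC ++ twB ++ cC ++ wq ++ twD ++ eA ++ VA ++ (d₀ ++ θ') ++ bqD ++ WD ++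
        V₀) :=
    (Run.vert1 (WB ++ θ ++ tpB ++ UC) (aC ++ bwB ++ pw ++ dA ++ bwD) w
      (twB ++ cC ++ wq ++ twD ++ eA) (VA ++ (d₀ ++ θ') ++ bqD ++ WD ++ V₀)).cast
      (by simp) (by simp)
  have g10 : Run (WB ++ θ ++ tpB ++ UC ++ twB ++ cC ++ wq ++ twD ++ eA ++ VA ++ (d₀ ++ θ') ++
        bqD ++ WD ++ V₀) ehA
      (WB ++ θ ++ tpB ++ UC ++ twB ++ cC ++ wq ++ twD ++ (d₀ ++ θ' ++ bqD) ++ WD ++ V₀) :=
    (rA.remove (WB ++ θ ++ tpB ++ UC ++ twB ++ cC ++ wq ++ twD)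
      ((d₀ ++ θ') ++ bqD ++ WD ++ V₀)).cast (by simp) (by simp)
  have g11 : Run (WB ++ θ ++ tpB ++ UC ++ twB ++ cC ++ wq ++ twD ++ (d₀ ++ θ' ++ bqD) ++ WD ++ V₀)
      [Ev.swap twD (d₀ ++ θ' ++ bqD)]
      (WB ++ θ ++ tpB ++ UC ++ twB ++ cC ++ wq ++ (d₀ ++ θ' ++ bqD) ++ twD ++ WD ++ V₀) :=
    (Run.swap1 (WB ++ θ ++ tpB ++ UC ++ twB ++ cC ++ wq) twD (d₀ ++ θ' ++ bqD) (WD ++ V₀)).cast
      (by simp) (by simp)
  have g12 : Run (WB ++ θ ++ tpB ++ UC ++ twB ++ cC ++ wq ++ (d₀ ++ θ' ++ bqD) ++ twD ++ WD ++ V₀)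
      emC (WB ++ θ ++ (tpB ++ twB) ++ dC ++ wq ++ d₀ ++ θ' ++ bqD ++ VC ++ twD ++ WD ++ V₀) :=
    (qC.context (WB ++ θ ++ tpB) (twD ++ WD ++ V₀)).cast (by simp) (by simp)
  have g13 : Run (WB ++ θ ++ (tpB ++ twB) ++ dC ++ wq ++ d₀ ++ θ' ++ bqD ++ VC ++ twD ++ WD ++ V₀)
      [Ev.swap θ (tpB ++ twB)]
      (WB ++ tpB ++ twB ++ θ ++ dC ++ wq ++ d₀ ++ θ' ++ bqD ++ VC ++ twD ++ WD ++ V₀) :=
    (Run.swap1 WB θ (tpB ++ twB) (dC ++ wq ++ d₀ ++ θ' ++ bqD ++ VC ++ twD ++ WD ++ V₀)).cast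
      (by simp) (by simp)
  have g14 : Run (WB ++ tpB ++ twB ++ θ ++ dC ++ wq ++ d₀ ++ θ' ++ bqD ++ VC ++ twD ++ WD ++ V₀)
      ehB (θ ++ dC ++ wq ++ d₀ ++ θ' ++ bqD ++ VC ++ twD ++ WD ++ V₀) :=
    (rB.remove [] (θ ++ dC ++ wq ++ d₀ ++ θ' ++ bqD ++ VC ++ twD ++ WD ++ V₀)).cast
      (by simp) (by simp)
  have g15 : Run (θ ++ dC ++ wq ++ d₀ ++ θ' ++ bqD ++ VC ++ twD ++ WD ++ V₀) [Ev.swap θ' bqD]
      (θ ++ (dC ++ wq ++ d₀ ++ bqD) ++ θ' ++ (VC ++ twD ++ WD ++ V₀)) :=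
    (Run.swap1 (θ ++ dC ++ wq ++ d₀) θ' bqD (VC ++ twD ++ WD ++ V₀)).cast (by simp) (by simp)
  exact (((((((((((((g1.append g2).append g3).append g4).append g5).append g6).append g7).append
    g8).append g9).append g10).append g11).append g12).append g13).append g14).append g15


theorem main : S_N1 := by
  intro E Δ p q w H₀ HA HB HC HD X₀ X₀' XA XA' XC XC' κ₀ κA κB κC κD hΔ hpq hpw hwq at₀ atA atB atC
    atD hw0 hqA hqB hpC hpD d0 dA' dB' dC' hww hwp hqw hn M₀ A B C D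
  obtain ⟨U₀, a₀, c₀, d₀, e₀, V₀, el₀, eh₀, r0l, r0h, ia0, oc0, id0, oe0, mid0⟩ := M₀
  obtain ⟨UA, aA, cA, dA, eA, VA, elA, ehA, rAl, rAh, iaA, ocA, idA, oeA, midA⟩ := A
  obtain ⟨WB, bwB, bpB, tpB, twB, elB, ehB, rBl, rBh, ibp, ibw, otp, otw, fB, kB⟩ := B
  obtain ⟨UC, aC, cC, dC, eC, VC, elC, ehC, rCl, rCh, iaC, ocC, idC, oeC, midC⟩ := C
  obtain ⟨WD, bqD, bwD, twD, tqD, elD, ehD, rDl, rDh, jbw, jbq, jtw, jtq, fD, kD⟩ := D
  -- forbidden edges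
  have nA : ∀ u ∈ HA, ∀ z, z ∉ HA → z ≠ p → z ≠ w → ¬ (E u z ∨ E z u) := by
    intro u hu z h1 h2 h3 h
    rcases atA.2.2 u hu z h with h | h | h
    · exact h1 h
    · exact h2 h
    · exact h3 h
  have nB : ∀ u ∈ HB, ∀ z, z ∉ HB → z ≠ p → z ≠ w → ¬ (E u z ∨ E z u) := by
    intro u hu z h1 h2 h3 h
    rcases atB.2.2 u hu z h with h | h | h
    · exact h1 h
    · exact h2 h
    · exact h3 h
  have nC : ∀ u ∈ HC, ∀ z, z ∉ HC → z ≠ w → z ≠ q → ¬ (E u z ∨ E z u) := by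
    intro u hu z h1 h2 h3 h
    rcases atC.2.2 u hu z h with h | h | h
    · exact h1 h
    · exact h2 h
    · exact h3 h
  have nD : ∀ u ∈ HD, ∀ z, z ∉ HD → z ≠ w → z ≠ q → ¬ (E u z ∨ E z u) := by
    intro u hu z h1 h2 h3 h
    rcases atD.2.2 u hu z h with h | h | h
    · exact h1 h
    · exact h2 h
    · exact h3 h
  have nAq : ∀ u ∈ HA, ¬ (E u q ∨ E q u) := fun u hu => nA u hu q hqA hpq.symm hwq.symm
  have nBq : ∀ u ∈ HB, ¬ (E u q ∨ E q u) := fun u hu => nB u hu q hqB hpq.symm hwq.symm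
  have nCp : ∀ u ∈ HC, ¬ (E u p ∨ E p u) := fun u hu => nC u hu p hpC hpw hpq
  have nDp : ∀ u ∈ HD, ¬ (E u p ∨ E p u) := fun u hu => nD u hu p hpD hpw hpq
  have hwA : w ∉ HA := atA.2.1
  have hwB : w ∉ HB := atB.2.1
  have hwC : w ∉ HC := atC.1
  have hwD : w ∉ HD := atD.1
  -- the lists at `p` and `q`
  have Ia : Inn E {v | v ∈ H₀ ∨ v ∈ HA ∨ v ∈ HB ∨ v ∈ HC ∨ v ∈ HD ∨ v = w} p (a₀ ++ aA ++ bpB) := by
    refine ((ia0.append iaA fun u hu => (d0 u hu).1).append ibp ?_).congr ?_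
    · rintro u (hu | hu)
      · exact (d0 u hu).2.1
      · exact (dA' u hu).1
    · intro u hu
      have h1 : u ∉ HC := fun h => nCp u h (Or.inl hu)
      have h2 : u ∉ HD := fun h => nDp u h (Or.inl hu)
      have h3 : u ≠ w := fun h => hwp (h ▸ hu)
      simp only [mem_ofPred_eq]
      tauto
  have Oc : Out E p {v | v ∈ H₀ ∨ v ∈ HA ∨ v ∈ HB ∨ v ∈ HC ∨ v ∈ HD ∨ v = w}
      (cA ++ opt E p w ++ tpB ++ c₀) := by
    refine ((((ocA.append (out_opt E p w) ?_).append otp ?_).append oc0 ?_)).congr ?_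
    · intro u hu h
      have h : u = w := h
      exact hwA (h ▸ hu)
    · rintro u (hu | hu)
      · exact (dA' u hu).1
      · have hu : u = w := hu
        exact fun h => hwB (hu ▸ h)
    · rintro u ((hu | hu) | hu) h
      · exact (d0 u h).1 hu
      · have hu : u = w := hu
        exact hw0 (hu ▸ h)
      · exact (d0 u h).2.1 hu
    · intro u hu
      have h1 : u ∉ HC := fun h => nCp u h (Or.inr hu)
      have h2 : u ∉ HD := fun h => nDp u h (Or.inr hu)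
      simp only [mem_ofPred_eq]
      tauto
  have Id : Inn E {v | v ∈ H₀ ∨ v ∈ HA ∨ v ∈ HB ∨ v ∈ HC ∨ v ∈ HD ∨ v = w} q
      (dC ++ opt E w q ++ d₀ ++ bqD) := by
    refine ((((idC.append (inn_opt E w q) ?_).append id0 ?_).append jbq ?_)).congr ?_
    · intro u hu h
      have h : u = w := h
      exact hwC (h ▸ hu)
    · rintro u (hu | hu) h
      · exact (d0 u h).2.2.1 hu
      · have hu : u = w := hu
        exact hw0 (hu ▸ h)
    · rintro u ((hu | hu) | hu) h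
      · exact dC' u hu h
      · have hu : u = w := hu
        exact hwD (hu ▸ h)
      · exact (d0 u hu).2.2.2 h
    · intro u hu
      have h1 : u ∉ HA := fun h => nAq u h (Or.inl hu)
      have h2 : u ∉ HB := fun h => nBq u h (Or.inl hu)
      simp only [mem_ofPred_eq]
      tauto
  have Oe : Out E q {v | v ∈ H₀ ∨ v ∈ HA ∨ v ∈ HB ∨ v ∈ HC ∨ v ∈ HD ∨ v = w}
      (e₀ ++ tqD ++ eC) := by
    refine ((oe0.append jtq fun u hu => (d0 u hu).2.2.2).append oeC ?_).congr ?_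
    · rintro u (hu | hu) h
      · exact (d0 u hu).2.2.1 h
      · exact dC' u h hu
    · intro u hu
      have h1 : u ∉ HA := fun h => nAq u h (Or.inr hu)
      have h2 : u ∉ HB := fun h => nBq u h (Or.inr hu)
      have h3 : u ≠ w := fun h => hqw (h ▸ hu)
      simp only [mem_ofPred_eq]
      tauto
  -- the lists at `w`
  have hdAD : ∀ u ∈ HA, u ∉ HD := fun u hu => (dA' u hu).2.2
  have hdAC : ∀ u ∈ HA, u ∉ HC := fun u hu => (dA' u hu).2.1
  have hdAB : ∀ u ∈ HA, u ∉ HB := fun u hu => (dA' u hu).1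
  have hdBC : ∀ u ∈ HB, u ∉ HC := fun u hu => (dB' u hu).1
  have hdBD : ∀ u ∈ HB, u ∉ HD := fun u hu => (dB' u hu).2
  have hpA : p ∉ HA := atA.1
  have hpB : p ∉ HB := atB.1
  have hqC : q ∉ HC := atC.2.1
  have hqD : q ∉ HD := atD.2.1
  have Iw : Inn E {v | (((v ∈ HC ∨ v ∈ HB) ∨ v = p) ∨ v ∈ HA) ∨ v ∈ HD} w
      (aC ++ bwB ++ opt E p w ++ dA ++ bwD) := by
    refine ((((iaC.append ibw ?_).append (inn_opt E p w) ?_).append idA ?_).append jbw ?_)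
    · intro u hu h
      exact hdBC u h hu
    · rintro u (hu | hu) h
      · have h : u = p := h
        exact hpC (h ▸ hu)
      · have h : u = p := h
        exact hpB (h ▸ hu)
    · rintro u ((hu | hu) | hu) h
      · exact hdAC u h hu
      · exact hdAB u h hu
      · have hu : u = p := hu
        exact hpA (hu ▸ h)
    · rintro u (((hu | hu) | hu) | hu) h
      · exact dC' u hu h
      · exact hdBD u hu h
      · have hu : u = p := hu
        exact hpD (hu ▸ h)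
      · exact hdAD u hu h
  have Ow : Out E w {v | (((v ∈ HB ∨ v ∈ HC) ∨ v = q) ∨ v ∈ HD) ∨ v ∈ HA}
      (twB ++ cC ++ opt E w q ++ twD ++ eA) := by
    refine ((((otw.append ocC hdBC).append (out_opt E w q) ?_).append jtw ?_).append oeA ?_)
    · rintro u (hu | hu) h
      · have h : u = q := h
        exact hqB (h ▸ hu)
      · have h : u = q := h
        exact hqC (h ▸ hu)
    · rintro u ((hu | hu) | hu) h
      · exact hdBD u hu h
      · exact dC' u hu h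
      · have hu : u = q := hu
        exact hqD (hu ▸ h)
    · rintro u (((hu | hu) | hu) | hu) h
      · exact hdAB u h hu
      · exact hdAC u h hu
      · have hu : u = q := hu
        exact hqA (hu ▸ h)
      · exact hdAD u h hu
  have hok : OKE E (Ev.vert w (aC ++ bwB ++ opt E p w ++ dA ++ bwD)
      (twB ++ cC ++ opt E w q ++ twD ++ eA)) := by
    refine oke_vert Iw Ow ?_ ?_
    · intro u hu
      have h1 : u ≠ q := fun h => hqw (h ▸ hu)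
      have := hn u (Or.inr hu)
      simp only [mem_ofPred_eq]
      tauto
    · intro u hu
      have h1 : u ≠ p := fun h => hwp (h ▸ hu)
      have := hn u (Or.inl hu)
      simp only [mem_ofPred_eq]
      tauto
  refine ⟨WB ++ bwB ++ UA ++ U₀, a₀ ++ aA ++ bpB, cA ++ opt E p w ++ tpB ++ c₀,
    dC ++ opt E w q ++ d₀ ++ bqD, e₀ ++ tqD ++ eC, VC ++ twD ++ WD ++ V₀, elB ++ elA ++ el₀,
    ehC ++ ehD ++ eh₀, ?_, ?_, Ia, Oc, Id, Oe, ?_⟩
  · have g1 : Run (WB ++ bwB ++ bpB) elA (WB ++ bwB ++ UA ++ aA ++ bpB) :=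
      (rAl.insert (WB ++ bwB) bpB).cast rfl (by simp)
    have g2 : Run (WB ++ bwB ++ UA ++ aA ++ bpB) el₀
        ((WB ++ bwB ++ UA ++ U₀) ++ (a₀ ++ aA ++ bpB)) :=
      (r0l.insert (WB ++ bwB ++ UA) (aA ++ bpB)).cast (by simp) (by simp)
    exact (rBl.append g1).append g2
  · have g1 : Run ((e₀ ++ tqD ++ eC) ++ (VC ++ twD ++ WD ++ V₀)) ehC
        (e₀ ++ (tqD ++ twD ++ WD) ++ V₀) :=
      (rCh.remove (e₀ ++ tqD) (twD ++ WD ++ V₀)).cast (by simp) (by simp)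
    have g2 : Run (e₀ ++ (tqD ++ twD ++ WD) ++ V₀) ehD (e₀ ++ V₀) := rDh.remove e₀ V₀
    exact (g1.append g2).append r0h
  · intro θ θ' hθ hθ'
    simp only [List.length_append] at hθ hθ'
    obtain ⟨em₀, q₀, f₀, k₀⟩ := mid0 (θ ++ cA ++ opt E p w ++ tpB) θ'
      (by simp only [List.length_append]; omega) (by omega)
    have hl1 : bwD.length + dA.length ≤ Δ := by
      have := (jbw.append idA fun u hu h => hdAD u h hu).length_le hΔ
      simpa using this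
    have hl2 : twB.length + cC.length ≤ Δ := by
      have := (otw.append ocC hdBC).length_le hΔ
      simpa using this
    obtain ⟨emA, qA, fA, kA⟩ := midA (θ ++ opt E p w ++ tpB) bwD
      (by simp only [List.length_append]; omega) (by omega)
    obtain ⟨emC, qC, fC, kC⟩ := midC twB (opt E w q ++ (d₀ ++ θ') ++ bqD)
      (by omega) (by simp only [List.length_append]; omega)
    refine ⟨_, mid_run (w := w) q₀ rDl qA rCl rAh qC rBh, ?_, ?_⟩
    · have F := (((((f₀.append fA fun u hu => (d0 u hu).1).append fB ?_).append fC ?_).append fD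
        ?_).vert (w := w) ?_ hok)
      · have F' := ((((((F.swap (d₀ ++ θ') bwD).swap cA (opt E p w ++ tpB)).swap bwB θ).swap
          (bwB ++ opt E p w) tpB).swap twD (d₀ ++ θ' ++ bqD)).swap θ (tpB ++ twB)).swap θ' bqD
        refine (F'.perm ?_).congr ?_
        · rw [← Multiset.coe_eq_coe]
          simp only [← Multiset.coe_add]
          abel
        · intro v
          simp only [mem_ofPred_eq]
          tauto
      · rintro u (hu | hu)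
        · exact (d0 u hu).2.1
        · exact hdAB u hu
      · rintro u ((hu | hu) | hu)
        · exact (d0 u hu).2.2.1
        · exact hdAC u hu
        · exact hdBC u hu
      · rintro u (((hu | hu) | hu) | hu)
        · exact (d0 u hu).2.2.2
        · exact hdAD u hu
        · exact hdBD u hu
        · exact dC' u hu
      · rintro ((((h | h) | h) | h) | h)
        · exact hw0 h
        · exact hwA h
        · exact hwB h
        · exact hwC h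
        · exact hwD h
    · intro x
      have k1 := k₀ x
      have k2 := kA x
      have k3 := kB x
      have k4 := kC x
      have k5 := kD x
      have lcA := ocA.length_le hΔ
      have lpw := (out_opt E p w).length_le hΔ
      have ltp := otp.length_le hΔ
      have lbw := jbw.length_le hΔ
      have lbB := ibw.length_le hΔ
      have ltw := jtw.length_le hΔ
      have lbq := jbq.length_le hΔ
      have ltB := otw.length_le hΔ
      have c1 := cost_swap (A := d₀ ++ θ') (B := bwD) (m := 2 * Δ) (n := Δ)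
        (by simp only [List.length_append]; omega) lbw x
      have c2 := cost_swap (A := cA) (B := opt E p w ++ tpB) (m := Δ) (n := 2 * Δ) lcA
        (by simp only [List.length_append]; omega) x
      have c3 := cost_swap (A := bwB) (B := θ) (m := Δ) (n := 2 * Δ) lbB (by omega) x
      have c4 := cost_swap (A := bwB ++ opt E p w) (B := tpB) (m := 2 * Δ) (n := Δ)
        (by simp only [List.length_append]; omega) ltp x
      have c5 := cost_swap (A := twD) (B := d₀ ++ θ' ++ bqD) (m := Δ) (n := 3 * Δ) ltw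
        (by simp only [List.length_append]; omega) x
      have c6 := cost_swap (A := θ) (B := tpB ++ twB) (m := 2 * Δ) (n := 2 * Δ) (by omega)
        (by simp only [List.length_append]; omega) x
      have c7 := cost_swap (A := θ') (B := bqD) (m := 2 * Δ) (n := Δ) (by omega) lbq x
      have hv := cost_arith Δ X₀ X₀' XA XA' XC XC' (ind3 p q w x.1 + ind3 p q w x.2) (θ.count x)
        (θ'.count x) (cA.count x) ((opt E p w).count x) (tpB.count x) (d₀.count x) (bwD.count x)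
        (bwB.count x) (twD.count x) (bqD.count x) (twB.count x) ((opt E w q).count x)
        (ocA.count_le (Or.inl rfl) x) ((out_opt E p w).count_le (Or.inl rfl) x)
        (otp.count_le (Or.inl rfl) x) (id0.count_le (Or.inr (Or.inl rfl)) x)
        (jbw.count_le (Or.inr (Or.inr rfl)) x) (ibw.count_le (Or.inr (Or.inr rfl)) x)
        (jtw.count_le (Or.inr (Or.inr rfl)) x) (jbq.count_le (Or.inr (Or.inl rfl)) x)
        (otw.count_le (Or.inr (Or.inr rfl)) x) ((out_opt E w q).count_le (Or.inr (Or.inr rfl)) x)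
      have cv : cr x [Ev.vert w (aC ++ bwB ++ opt E p w ++ dA ++ bwD)
        (twB ++ cC ++ opt E w q ++ twD ++ eA)] = 0 := by simp
      simp only [List.count_append] at k1 k2 k4 c1 c2 c4 c5 c6
      simp only [cr_append] at k1 k2 k3 k4 k5 ⊢
      rw [cv]
      generalize cr x [Ev.swap (d₀ ++ θ') bwD] = s1 at *
      generalize cr x [Ev.swap cA (opt E p w ++ tpB)] = s2 at *
      generalize cr x [Ev.swap bwB θ] = s3 at *
      generalize cr x [Ev.swap (bwB ++ opt E p w) tpB] = s4 at *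
      generalize cr x [Ev.swap twD (d₀ ++ θ' ++ bqD)] = s5 at *
      generalize cr x [Ev.swap θ (tpB ++ twB)] = s6 at *
      generalize cr x [Ev.swap θ' bqD] = s7 at *
      have hwq' : (opt E w q).count x + (d₀.count x + θ'.count x) + bqD.count x =
        (opt E w q).count x + d₀.count x + θ'.count x + bqD.count x := by ring
      rw [hwq'] at k4
      linarith

end Pool.Agent.Helper8.UL2.N1
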